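import Pool.Agent.Q161.EA.Stm
import Pool.Agent.TH841.SH.Main

/-!
# Project EA (helper161), part 2: from the 2-Selmer group to classes in `L^*/ℚ^* L^*²`

`W : y² = x³ + A x + B` over `ℚ`, the cubic irreducible, `ϑ` a zero of it, `L = ℚ(ϑ)`.  A cocycle
`f : Gal(ℚ̄/ℚ) → W[2]` gives by the Weil pairing `c(σ, e) = w(f(σ), (e ϑ, 0)) = ± 1`, `e : L → ℚ̄`, a cocycle
with values in `∏_e {± 1}`; by Hilbert 90 there are `γ(e) ∈ ℚ̄^*` with `σ(γ(σ⁻¹ e)) = c(σ, e) γ(e)`, and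
`γ(e)² = e(δ)` with a `δ ∈ L^*`.  The map `f ↦ δ` is injective modulo coboundaries, `N(δ)` is a square,
and if `f` is locally trivial in `W` then the covering `x - ϑ w = δ η²` is locally soluble:
`x(2 P) - e = g_e(P)²`, `g_e(P + T) = w(T, T_e) g_e(P)`.

The files `Pool/Agent/TH841/SH/*.lean` treat curves with full rational 2-torsion; their algebraic part
(`Alg.lean`, `Alg2.lean`: `IsR.dup`, `IsR.sign`, `IsR.isX_add`, `IsR.ext`, `IsR.div`, `IsR.halve` ..) holds over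
any field, so it can be used for `W.baseChange QB` and `W.baseChange Ω`.
-/

set_option autoImplicit false

namespace Pool.Agent.Q161.EA

open WeierstrassCurve Polynomial NumberField

open scoped Classical

open Pool.Agent.W262.SH (QB Pt act IsCoc IsCob LocTriv shaCoc cob Sha)
open Pool.Agent.TH841.SH (EvLoc IsX IsR gf)
open Pool.Agent.Q51.EL (Setup)
open Pool.Agent.Q161.OS (Cov Tr)

/-- the curve `y² = x³ + A x + B` -/
def sh (A B : ℚ) : WeierstrassCurve ℚ := ⟨0, 0, 0, A, B⟩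

/-- the quadratic twist `y² = x³ + a D² x + b D³` of `y² = x³ + a x + b` by `D` -/
def tw (a b D : ℤ) : WeierstrassCurve ℚ := sh ((a : ℚ) * D ^ 2) ((b : ℚ) * D ^ 3)

/-- the 2-Selmer cocycles: continuous cocycles with values in `W[2]` which are coboundaries in `W` at all
places -/
noncomputable def selC (W : WeierstrassCurve ℚ) : AddSubgroup ((QB ≃ₐ[ℚ] QB) → Pt W QB) where
  carrier := {f | IsLocallyConstant f ∧ (∀ σ, f σ + f σ = 0) ∧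
    (∀ σ τ, f (σ * τ) = f σ + act W σ.toAlgHom (f τ)) ∧ EvLoc W f}
  zero_mem' := ⟨IsLocallyConstant.const _, fun σ => by simp, fun σ τ => by simp,
    Pool.Agent.TH841.SH.EvLoc.zero W⟩
  add_mem' := by
    rintro f g ⟨hf1, hf2, hf3, hf4⟩ ⟨hg1, hg2, hg3, hg4⟩
    refine ⟨hf1.add hg1, fun σ => ?_, fun σ τ => ?_, hf4.add hg4⟩
    · have e : (f + g) σ + (f + g) σ = (f σ + f σ) + (g σ + g σ) := by
        simp only [Pi.add_apply]
        abel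
      rw [e, hf2, hg2, add_zero]
    · simp only [Pi.add_apply, hf3, hg3, map_add]
      abel
  neg_mem' := by
    rintro f ⟨hf1, hf2, hf3, hf4⟩
    refine ⟨hf1.neg, fun σ => ?_, fun σ τ => ?_, hf4.neg⟩
    · have e : (-f) σ + (-f) σ = -(f σ + f σ) := by
        simp only [Pi.neg_apply]
        abel
      rw [e, hf2, neg_zero]
    · simp only [Pi.neg_apply, hf3, map_neg]
      abel

/-- the coboundaries of the points `T` with `2 T = 0` -/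
noncomputable def cobT (W : WeierstrassCurve ℚ) : AddSubgroup ((QB ≃ₐ[ℚ] QB) → Pt W QB) where
  carrier := {f | ∃ T : Pt W QB, T + T = 0 ∧ ∀ σ, f σ = act W σ.toAlgHom T - T}
  zero_mem' := ⟨0, by simp, fun σ => by simp⟩
  add_mem' := by
    rintro f g ⟨T, hT, hf⟩ ⟨U, hU, hg⟩
    refine ⟨T + U, ?_, fun σ => ?_⟩
    · have e : T + U + (T + U) = (T + T) + (U + U) := by abel
      rw [e, hT, hU, add_zero]
    · simp only [Pi.add_apply, hf, hg, map_add]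
      abel
  neg_mem' := by
    rintro f ⟨T, hT, hf⟩
    refine ⟨-T, ?_, fun σ => ?_⟩
    · have e : -T + -T = -(T + T) := by abel
      rw [e, hT, neg_zero]
    · simp only [Pi.neg_apply, hf, map_neg]
      abel

/-- the 2-Selmer group of `W` over `ℚ` -/
abbrev Sel2 (W : WeierstrassCurve ℚ) : Type := selC W ⧸ (cobT W).addSubgroupOf (selC W)

/-- JOB GRP2. `0 → W(ℚ)/2 → Sel_2 → Ш[2] → 0`.
Proof: adapt `Pool/Agent/TH841/SH/Grp.lean` (`card_le` there, for `selHom`; here `Sel2 W` is the quotient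
`selC W / cobT W`).  `W(ℚ̄)` is divisible by 2: the cubic splits over `ℚ̄` with three different zeros
(discriminant), `IsR.div`.  `Mordell-Weil`: `Pool.Agent.Q286.EQ.mordell_weil`.  The map
`Sel2 W → Ш`, `f ↦ f` has image `Ш[2]`, and `W(ℚ)/2 W(ℚ) → Sel2 W`, `P = 2 Q ↦ (σ ↦ σ Q - Q)` is injective with
image in the kernel: if `σ Q - Q = σ T - T` with `2 T = 0` then `Q - T` is rational and `P = 2 (Q - T)`. -/
def S_GRP2 : Prop := ∀ A B : ℚ, 4 * A ^ 3 + 27 * B ^ 2 ≠ 0 → Finite (Sel2 (sh A B)) →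
  Finite {x : Sha (sh A B) // x + x = 0} ∧
    2 ^ Module.finrank ℤ (sh A B).toAffine.Point * Nat.card {x : Sha (sh A B) // x + x = 0} ≤
      Nat.card (Sel2 (sh A B))

/-- the pairing of a point of order two with the point `(e, 0)` -/
noncomputable def sg {K : Type} [Field K] (W : WeierstrassCurve K) (e : K)
    (T : W.toAffine.Point) : K := if IsX W e T then 1 else -1

/-- `L = ℚ(ϑ)`, `ϑ` a zero of the irreducible polynomial `x³ + A x + B` -/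
structure Cub (A B : ℚ) (L : Type) [Field L] [NumberField L] (ϑ : L) : Prop where
  irr : Irreducible (X ^ 3 + C A * X + C B : ℚ[X])
  root : ϑ ^ 3 + (A : L) * ϑ + (B : L) = 0
  deg : Module.finrank ℚ L = 3

/-- Kummer data for the cocycle `f` -/
structure KD {L : Type} [Field L] [NumberField L] (W : WeierstrassCurve ℚ) (ϑ : L)
    (f : (QB ≃ₐ[ℚ] QB) → Pt W QB) (γ : (L →ₐ[ℚ] QB) → QB) (δ : L) : Prop where
  ne : ∀ e, γ e ≠ 0
  gal : ∀ (σ : QB ≃ₐ[ℚ] QB) (e : L →ₐ[ℚ] QB),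
    σ (γ (σ.symm.toAlgHom.comp e)) = sg (W.baseChange QB) (e ϑ) (f σ) * γ e
  sq : ∀ e, γ e ^ 2 = e δ

/-- JOB K90. Kummer theory for the algebra `L` (Hilbert 90).
Proof.  Fix `e1 : L → QB`; every `e` is `σ e1` (restricted) for some `σ` (transitivity).  The functions `c(·, e)`
are locally constant and there are finitely many `e`, so there is a finite Galois extension `M ⊆ QB` of
`ℚ` containing all `e(L)` such that `c(σ, e)` depends only on `σ|_M`.  For `x ∈ M` let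
`γ_x(e) = ∑_{s ∈ Gal(M/ℚ), s e1 = e} c(s, e) s(x)`.  Then `τ(γ_x(τ⁻¹ e)) = c(τ, e) γ_x(e)` (cocycle identity
`c(τ s, e) = c(τ, e) c(s, τ⁻¹ e)`, `c = ± 1`), and by Dedekind's theorem on the independence of the automorphisms there
is an `x` with `γ_x(e1) ≠ 0`, so all `γ_x(e) ≠ 0`.  `γ_x(e1)²` is fixed by all `σ` with `σ e1 = e1`, so it is `e1(δ)`
with `δ ∈ L` (`Pool.Agent.TH841.SH.fix_mem` for `L ⊆ QB`), and `γ_x(σ e1)² = σ(γ_x(e1)²) = (σ e1)(δ)`. -/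
def S_K90 : Prop := ∀ (L : Type) [Field L] [NumberField L]
  (c : (QB ≃ₐ[ℚ] QB) → (L →ₐ[ℚ] QB) → QB), (∀ e, IsLocallyConstant (fun σ => c σ e)) →
  (∀ σ e, c σ e = 1 ∨ c σ e = -1) →
  (∀ (σ τ : QB ≃ₐ[ℚ] QB) (e : L →ₐ[ℚ] QB),
    c (σ * τ) e = c σ e * c τ (σ.symm.toAlgHom.comp e)) →
  ∃ (γ : (L →ₐ[ℚ] QB) → QB) (δ : L), (∀ e, γ e ≠ 0) ∧
    (∀ (σ : QB ≃ₐ[ℚ] QB) (e : L →ₐ[ℚ] QB), σ (γ (σ.symm.toAlgHom.comp e)) = c σ e * γ e) ∧
    ∀ e, γ e ^ 2 = e δ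

/-- JOB KD. Every cocycle has Kummer data.
Proof (from `S_K90`): `c(σ, e) = sg (e ϑ) (f σ)`.  The three `e ϑ` are different, `IsR (W.baseChange QB)
(e1 ϑ) (e2 ϑ) (e3 ϑ)`, and the pairing is additive (`IsR.isX_add`) and `IsX (σ e ϑ) (σ T) ↔ IsX (e ϑ) T` (compare
`act_isX` in `Pool/Agent/TH841/SH/Loc.lean`). -/
def S_KD : Prop := ∀ (A B : ℚ) (L : Type) [Field L] [NumberField L] (ϑ : L), Cub A B L ϑ →
  ∀ f : (QB ≃ₐ[ℚ] QB) → Pt (sh A B) QB, IsLocallyConstant f → (∀ σ, f σ + f σ = 0) →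
  (∀ σ τ, f (σ * τ) = f σ + act (sh A B) σ.toAlgHom (f τ)) →
  ∃ (γ : (L →ₐ[ℚ] QB) → QB) (δ : L), KD (sh A B) ϑ f γ δ

/-- JOB KN. The norm of `δ` is a nonzero square.
Proof: `g = ∏_e γ(e)` satisfies `σ g = ∏_e sg (e ϑ) (f σ) g = g` (a point `T ≠ 0` with `2 T = 0` has abscissa `e ϑ` for
exactly one `e`, so the product of the signs is `1 * (-1) * (-1)`), so `g = q ∈ ℚ^*`, and `N(δ) = ∏_e e(δ) = q²`. -/
def S_KN : Prop := ∀ (A B : ℚ) (L : Type) [Field L] [NumberField L] (ϑ : L), Cub A B L ϑ →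
  ∀ (f : (QB ≃ₐ[ℚ] QB) → Pt (sh A B) QB) (γ : (L →ₐ[ℚ] QB) → QB) (δ : L),
  (∀ σ, f σ + f σ = 0) → KD (sh A B) ϑ f γ δ → ∃ q : ℚ, q ≠ 0 ∧ Algebra.norm ℚ δ = q ^ 2

/-- JOB KI. Injectivity.
Proof.  `Tr L (δ δ')`: `δ δ' = c η²`; norms: `c³ N(η)² = N(δ) N(δ')` is a square (`S_KN`), so `c` is one and
`δ δ' = η²` (new `η ≠ 0`).  For every `e` `(γ(e) γ'(e))² = e(η)²`, so `γ(e) γ'(e) = s(e) e(η)`, `s(e) = ± 1`.
`σ(e'(η)) = (σ e')(η)`, so `sg (e ϑ) (f σ) * sg (e ϑ) (f' σ) = s(σ⁻¹ e) s(e)` for all `σ`, `e`.  Replacing `η` by `-η` if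
necessary we may assume `∏_e s(e) = 1` (three embeddings).  Then there is a `T` with `2 T = 0` and
`sg (e ϑ) T = s(e)` for all `e` (`T = 0`, or `T = (e0 ϑ, 0)` if `s(e0) = 1` and the other two are `-1`).  So
`sg (e ϑ) (f σ - f' σ) = sg (e ϑ) (σ T - T)` for all `e`, and `IsR.ext` gives `f σ - f' σ = σ T - T`. -/
def S_KI : Prop := ∀ (A B : ℚ) (L : Type) [Field L] [NumberField L] (ϑ : L), Cub A B L ϑ →
  ∀ (f f' : (QB ≃ₐ[ℚ] QB) → Pt (sh A B) QB) (γ γ' : (L →ₐ[ℚ] QB) → QB) (δ δ' : L),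
  (∀ σ, f σ + f σ = 0) → (∀ σ, f' σ + f' σ = 0) → KD (sh A B) ϑ f γ δ → KD (sh A B) ϑ f' γ' δ' →
  Tr L (δ * δ') → ∃ T : Pt (sh A B) QB, T + T = 0 ∧
    ∀ σ : QB ≃ₐ[ℚ] QB, f σ - f' σ = act (sh A B) σ.toAlgHom T - T

/-- JOB ITP. Interpolation.
Proof: Lagrange interpolation with the nodes `e ϑ`; the coefficients are fixed by all `τ`, so they lie in `K`
(`Pool.Agent.TH841.SH.fix_mem`). -/
def S_ITP : Prop := ∀ (A B : ℚ) (L : Type) [Field L] [NumberField L] (ϑ : L), Cub A B L ϑ →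
  ∀ (K Ω : Type) [Field K] [Field Ω] [CharZero K] [Algebra ℚ K] [Algebra K Ω] [Algebra ℚ Ω]
    [IsScalarTower ℚ K Ω] [IsAlgClosed Ω] [IsGalois K Ω] (h : (L →ₐ[ℚ] Ω) → Ω),
  (∀ (τ : Ω ≃ₐ[K] Ω) (e : L →ₐ[ℚ] Ω),
    τ (h ((τ.symm.toAlgHom.restrictScalars ℚ).comp e)) = h e) →
  ∃ g : K[X], ∀ e : L →ₐ[ℚ] Ω, aeval (e ϑ) g = h e

/-- JOB KL. Local solubility.
Proof (from `S_ITP`), `K = ℚ_p`, `Ω` = algebraic closure.  Adapt `Pool/Agent/TH841/SH/Loc.lean` (`loc_one`,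
`loc_step`).  Choose `ι : QB → Ω`, and `P` with `ι(f σ) = τ P - P` for all `τ` and `σ = τ|_QB`.  `2 P` is fixed by all
`τ`.  The embeddings `e : L → Ω` are `ι ∘ e'`; the `e ϑ` are three different elements of `Ω`, and
`IsR (W.baseChange Ω)` holds for them.
Case 1: `2 P ≠ 0`: `P = (u, v)`, `v ≠ 0`, `2 P = (x, y)`, `x ∈ K`.  `x - e ϑ = g_e(P)²`, `g_e` = `gf` (`IsR.dup`), and
`g_e(P + T) = sg (e ϑ) T g_e(P)` (`IsR.sign`).  `h(e) = g_e(P) / ι(γ(e'))` satisfies `τ(h(τ⁻¹ e)) = h(e)`, as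
`τ(g_{τ⁻¹ e}(P)) = g_e(τ P) = g_e(P + ι (f σ)) = sg (e ϑ) (ι f σ) g_e(P)` and
`σ(γ(σ⁻¹ e')) = sg (e' ϑ) (f σ) γ(e')`.  So there is a `g ∈ K[X]` with `g(e ϑ) = h(e)` and
`x - e ϑ = d(e ϑ) g(e ϑ)²` for all `e`: `x³ + A x + B` divides `x - X - d g²` (three different zeros).  `w = 1`.
Case 2: `2 P = 0`: `h(e) = sg (e ϑ) P / ι(γ(e'))` satisfies `τ(h(τ⁻¹ e)) = h(e)`, as
`sg (e ϑ) (ι f σ) = sg (e ϑ) (τ P) sg (e ϑ) P` and `sg (e ϑ) (τ P) = sg (τ⁻¹ e ϑ) P`.  So `1 = d(e ϑ) g(e ϑ)²`: `x = 1`,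
`w = 0`. -/
def S_KL : Prop := ∀ (A B : ℚ) (L : Type) [Field L] [NumberField L] (ϑ : L), Cub A B L ϑ →
  ∀ (f : (QB ≃ₐ[ℚ] QB) → Pt (sh A B) QB) (γ : (L →ₐ[ℚ] QB) → QB) (δ : L),
  (∀ σ, f σ + f σ = 0) → KD (sh A B) ϑ f γ δ → ∀ (p : ℕ) [Fact p.Prime], LocTriv (sh A B) ℚ_[p] f →
  ∀ d : ℚ[X], aeval ϑ d = δ → ∃ (x w : ℚ_[p]) (g : ℚ_[p][X]), (w = 1 ∨ (w = 0 ∧ x = 1)) ∧
    (X ^ 3 + C A * X + C B : ℚ[X]).map (Rat.castHom ℚ_[p]) ∣
      C x - C w * X - d.map (Rat.castHom ℚ_[p]) * g ^ 2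

/-- JOB SHA. The classes of the elements of the Selmer group of a twist.
Proof (from `S_KD`, `S_KN`, `S_KI`, `S_KL`).  `f0 = x³ + a x + b`, `ϑ = D θ` is a zero of `x³ + a D² x + b D³`.  For
`x ∈ Sel2` choose a cocycle `f`, Kummer data `γ, δ` (`S_KD`), `Φ x = δ`.  `Tr (δ_x δ_y)` implies `x = y` by `S_KI`.  Let
`δ = d(θ)`; `d'(X) = d(X/D)`, so `d'(ϑ) = δ`.  `S_KL` gives `F_D(X) ∣ x - w X - d'(X) g(X)²`, and with `D X` instead of
`X`: `f0(X) ∣ x - w D X - d(X) g(D X)²`.  `N(δ) = q²`: so `(x, w D, v, g(D X))` with `v = w / q` is a point of the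
covering: `w D = D q² v²` (`w ∈ {0, 1}`). -/
def S_SHA : Prop := ∀ (a b : ℤ) (L : Type) [Field L] [NumberField L] (θ : L),
  Setup (X ^ 3 + C a * X + C b : ℤ[X]) L θ → ∀ D : ℤ, D ≠ 0 →
  ∃ Φ : Sel2 (tw a b D) → L,
    (∀ x, Φ x ≠ 0 ∧ ∃ d : ℚ[X], aeval θ d = Φ x ∧ ∀ (p : ℕ) [Fact p.Prime],
      Cov (X ^ 3 + C a * X + C b : ℤ[X]) d
        ((((X ^ 3 + C a * X + C b : ℤ[X]).leadingCoeff * D : ℤ) : ℚ) * Algebra.norm ℚ (aeval θ d))
          ℚ_[p]) ∧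
    ∀ x y, Tr L (Φ x * Φ y) → x = y

/-- GOAL: the average order of the 2-Selmer group over all quadratic twists is bounded. -/
def S_GOAL : Prop := ∀ a b : ℤ, Irreducible (X ^ 3 + C (a : ℚ) * X + C (b : ℚ) : ℚ[X]) →
  (∀ D : ℤ, Squarefree D → Finite (Sel2 (tw a b D)) ∧ Finite {x : Sha (tw a b D) // x + x = 0} ∧
    2 ^ Module.finrank ℤ (tw a b D).toAffine.Point * Nat.card {x : Sha (tw a b D) // x + x = 0} ≤
      Nat.card (Sel2 (tw a b D))) ∧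
  ∃ C : ℝ, 0 < C ∧ ∀ Y : ℝ, 1 ≤ Y →
    ((∑ D ∈ (Finset.Icc (-⌊Y⌋) ⌊Y⌋).filter (fun D : ℤ => Squarefree D),
      Nat.card (Sel2 (tw a b D)) : ℕ) : ℝ) ≤ C * Y

end Pool.Agent.Q161.EA
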