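import Pool.Agent.Q161.OS.Stm

/-!
# Project EA (helper161): the average of the 2-Selmer groups of ALL quadratic twists of an elliptic
# curve without rational 2-torsion is BOUNDED

GOAL.  `E : y² = x³ + a x + b` over `ℚ`, `f = x³ + a x + b` irreducible (100% of all elliptic curves over
`ℚ`), `E_D : D y² = f(x)`.  There is a `C` such that for all `X ≥ 1`
`∑_{D squarefree, |D| ≤ X} #Sel_2(E_D) ≤ C X`.  As `#Sel_2(E_D) = 2^rank(E_D) * #Ш(E_D)[2]`, the average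
of `2^rank`, so the average rank, and the average of `#Ш[2]` are bounded, and the proportion of the
twists of rank `≥ r` is `≤ C 2^(-r)`.

PROOF.  Let `L = ℚ(θ)`, `n = [L : ℚ] = 3` (the analytic part works for all odd `n ≥ 3`).  The elements of
`Sel_2(E_D)` are the classes `δ ∈ L^*/ℚ^* L^*²` whose covering `x - θ w = δ η²`, `w = D N(δ) v²` is everywhere
locally soluble.  By the descent of project OS (`OS.S_DESC2`, proved) a pair `(D, δ)` gives a pair `(α, m)`,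
`α ∈ 𝓞 L` in the class of `δ`, `m ≥ 1`, `|σ α| ≤ C (|D|/m)^(1/n)`, which satisfies the local conditions `P1, P2`
of project OD at almost all primes `l`; and `(α, m)` determines `D` up to finitely many possibilities.  So
we have to show: the number of the pairs `(α, m) ∈ T` with `1 ≤ m ≤ X`, `|σ α| ≤ C (X/m)^(1/n)` is `O(X)`, if
`T` satisfies `P1, P2` (`S_BOX2`).

Dyadic boxes `m ~ M`, `|σ α| ≤ Y`, `Y^n M ~ X`.
(A) Of the `l^(n+1)` classes modulo `l` the proportion `1 - (N1 + 1 - rho)/l`, `rho ≤ 1`, is allowed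
(`OD.S_CNT2`), and `∑_{l ≤ Y} N1 / l = log log Y + O(1)` (`S_MER`); so the large sieve gives
`≤ C X / log min(Y, M)` (`S_COR`).  This is good enough if `log Y` and `log M` have the same size.
(B) `M` much smaller than `Y`: for fixed `m` the sieve for `α` can use all primes up to `Y^(1/4)`; the
primes up to `√M` are treated together with `m`, and those between `√M` and `Y^(1/4)` give a factor
`(log M / log Y)^(1/2)` (`S_REGB`).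
(C) `Y` much smaller than `M`: for fixed `α` the number `m` has no prime factor `l` with `ψ_l(α) = - ε_l`; here
`ψ_l` is a quadratic character modulo `l`, trivial on `ℤ`.  For all but `O(Y^n / log² Y)` of the `α` half
of the primes between `√Y` and `exp (log Y)^(1+b)` have this property (`S_EXC`): high moments
`∑_l |∑_{α ∈ A} ψ_l(α)|^(2k)` and the large sieve (`S_MOM`).  So one gains a factor
`max ((log Y / log M)^b, (log Y)^(-b))` (`S_REGC`).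
Then the sum over the boxes is `O(X)`.
-/

set_option autoImplicit false

namespace Pool.Agent.Q161.EA

open Polynomial NumberField IsDedekindDomain Finset
open Pool.Agent.Q51.EL
open Pool.Agent.Q161.OD (P1 P2 red rho)
open Pool.Agent.Q161.OS (Cov Tr Gd)

section L

variable {L : Type} [Field L] [NumberField L]

/-- `α` is a unit at all primes above `l` -/
def Un (l : ℕ) (α : 𝓞 L) : Prop := ∀ v : HeightOneSpectrum (𝓞 L), Abv v l → α ∉ v.asIdeal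

/-- the pairs which satisfy the local conditions at `l` imposed by `T`: a union of classes modulo `l` -/
def Sat (l : ℕ) (T : Set (𝓞 L × ℤ)) : Set (𝓞 L × ℤ) :=
  {p | Un l p.1 ∧ (¬ (l : ℤ) ∣ p.2 ∨ ∃ q ∈ T, (l : ℤ) ∣ q.2 ∧ ∃ c : ℤ, ¬ (l : ℤ) ∣ c ∧
    ∀ v : HeightOneSpectrum (𝓞 L), Abv v l → ∃ g : 𝓞 L, (c : 𝓞 L) * p.1 * q.1 - g ^ 2 ∈ v.asIdeal)} ∪
  {p | ∃ q ∈ T, red L l q = red L l p}

open Classical in
/-- the number of the classes `m` modulo `l` such that `(α, m)` is allowed -/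
noncomputable def om (T : Set (𝓞 L × ℤ)) (l : ℕ) (α : 𝓞 L) : ℕ :=
  ((range l).filter (fun m : ℕ => (α, (m : ℤ)) ∈ Sat l T)).card

/-- the number of the classes `α` modulo `l` such that `(α, m)` is allowed -/
noncomputable def oma (T : Set (𝓞 L × ℤ)) (l : ℕ) (m : ℤ) : ℕ :=
  (Ideal.Quotient.mk (Ideal.span {(l : 𝓞 L)}) '' {α : 𝓞 L | (α, m) ∈ Sat l T}).ncard

/-- the number of the prime ideals which divide `α`, with multiplicity -/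
noncomputable def Om (α : 𝓞 L) : ℕ :=
  (UniqueFactorizationMonoid.normalizedFactors (Ideal.span {α})).card

/-- `α ≠ 0`, all conjugates of `α` have about the same size, and `α` is almost squarefree -/
structure Nice (K : ℝ) (α : 𝓞 L) : Prop where
  ne : α ≠ 0
  bal : ∀ σ : L →+* ℂ, ‖σ (α : L)‖ ^ Module.finrank ℚ L ≤ K * (Ideal.absNorm (Ideal.span {α}) : ℕ)
  om : (Om α : ℝ) ≤ K + ((Ideal.absNorm (Ideal.span {α})).primeFactors.card : ℕ)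

variable (L) in
/-- `ψ_l` is for almost all `l` with `N1 L l ≥ 1` a nontrivial quadratic character modulo `l`, with the same
value for `α` and `β` if `α β` is a rational number times a square modulo `l` -/
structure Chr (B : ℕ) (ψ : ℕ → 𝓞 L → ℝ) : Prop where
  mul : ∀ (l : ℕ) (α β : 𝓞 L), ψ l (α * β) = ψ l α * ψ l β
  abs : ∀ (l : ℕ) (α : 𝓞 L), |ψ l α| ≤ 1
  red : ∀ (l : ℕ) (α β : 𝓞 L), l.Prime → (l : 𝓞 L) ∣ α - β → ψ l α = ψ l β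
  neg : ∀ l : ℕ, l.Prime → ¬ l ∣ B → 1 ≤ N1 L l → ∃ u w : 𝓞 L, (l : 𝓞 L) ∣ u * w - 1 ∧ ψ l u = -1
  unit : ∀ (l : ℕ) (α : 𝓞 L), l.Prime → ¬ l ∣ B → 1 ≤ N1 L l → Un l α → ψ l α = 1 ∨ ψ l α = -1
  coset : ∀ (l : ℕ) (α β : 𝓞 L) (c : ℤ), l.Prime → ¬ l ∣ B → 1 ≤ N1 L l → ¬ (l : ℤ) ∣ c →
    Un l α → Un l β →
    (∀ v : HeightOneSpectrum (𝓞 L), Abv v l → ∃ g : 𝓞 L, (c : 𝓞 L) * α * β - g ^ 2 ∈ v.asIdeal) →
    ψ l α = ψ l β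

end L

/-! ## Part 1: Mertens' theorem and the joint sieve -/

/-- JOB MER. Mertens' second theorem for the primes of degree one, with error term `O(1)`.
Proof.  (i) `∑_p (N1 p - 1) p^(-x)` is bounded for `x → 1+`: `Pool.Agent.H921R2.TatePole`
(`Pool/Agent/H921R2/TatePole/..`, BaseChange, `sum_R_bdd`: the Dedekind zeta function has a simple pole at
`1`), `Q282.MN.card_norm`; the same for `L` and for `ℚ`.  (ii) with `x = 1 + 1/log Y`: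
`∑_{p ≤ Y} (1/p - p^(-x)) ≤ ∑_{p ≤ Y} log p / (p log Y) ≤ C` (Mertens' first theorem) and
`∑_{p > Y} p^(-x) ≤ C` (Chebyshev), both times `N1 ≤ n`.  So
`|∑_{l ≤ Y} N1 / l - ∑_{l ≤ Y} 1/l| ≤ C`; and `∑_{l ≤ Y} 1/l = log log Y + O(1)` (in the library, `Q91.EL.Sums`
uses it). -/
def S_MER : Prop := ∀ (L : Type) [Field L] [NumberField L], ∃ C : ℝ, ∀ Y : ℝ, 3 ≤ Y →
  |∑ l ∈ pr Y, (N1 L l : ℝ) / l - Real.log (Real.log Y)| ≤ C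

/-- JOB COR. The joint sieve.
Proof: adapt `Q26.OD.core2` (`Pool/Agent/Q26/OD/Core2.lean`) (from `OD.S_SIEVE2`, `EL.S_SUMS`, `OD.S_CNT2`,
`EL.S_RAM`, `S_MER`, all proved).  `rho L l ≤ 1` for `n ≥ 3`, so
`∑_{l ∈ P} η l ≥ ∑_{l ≤ √min} N1 l / l - C ≥ log log min - C`.  Here the primes with `N1 = 0`
are not used.  The hypothesis on `T` is needed only for the primes with `l² ≤ min(Y, M)`.  For
`min(Y, M) < 9` use the trivial case `P = ∅` of `S_SIEVE2`. -/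
def S_COR : Prop := ∀ (L : Type) [Field L] [NumberField L], 3 ≤ Module.finrank ℚ L → ∀ B : ℕ, B ≠ 0 →
  ∃ C : ℝ, 0 < C ∧ ∀ (T : Set (𝓞 L × ℤ)) (Y M : ℝ), 1 ≤ Y → 1 ≤ M →
    (∀ l : ℕ, l.Prime → ¬ l ∣ B → ((l : ℝ)) ^ 2 ≤ min Y M → P1 l T ∧ P2 l T) →
    {p ∈ T | (∀ σ : L →+* ℂ, ‖σ (p.1 : L)‖ ≤ Y) ∧ |(p.2 : ℝ)| ≤ M}.Finite ∧
    (({p ∈ T | (∀ σ : L →+* ℂ, ‖σ (p.1 : L)‖ ≤ Y) ∧ |(p.2 : ℝ)| ≤ M}.ncard : ℕ) : ℝ) *
      (1 + Real.log (min Y M)) ≤ C * Y ^ Module.finrank ℚ L * M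

/-- JOB SAT. The saturated sets satisfy `P1`, `P2`.
Proof.  Let `p, p'` lie in `Sat l T`.  `P1`: elements of the first kind are units at `l`; those of the second
kind have the same reduction as an element of `T`.  `P2`, first part: `α, α' ∈ v0`, so both pairs are of the
second kind, `red q = red p`, `red q' = red p'`, `q, q' ∈ T`, and `P2` for `q, q'`.  Second part: `l ∣ m`, `l ∣ m'`:
for each of the two there is a `q ∈ T` with `l ∣ q.2`, `c α q.1 ≡ g²` (for the second kind: `P2` for `q, q`);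
multiply the two congruences with `c'' q.1 q'.1 ≡ g''²` (`P2` for `q, q'`) and divide by the unit
`(q.1 q'.1)²`. -/
def S_SAT : Prop := ∀ (L : Type) [Field L] [NumberField L] (l : ℕ) (T : Set (𝓞 L × ℤ)), l.Prime →
  P1 l T → P2 l T → P1 l (Sat l T) ∧ P2 l (Sat l T) ∧ T ⊆ Sat l T ∧
    ∀ p p' : 𝓞 L × ℤ, red L l p = red L l p' → p ∈ Sat l T → p' ∈ Sat l T

/-- JOB FSA. The mean value of the local densities of `m`, over `α`.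
Proof (from `S_COR`, `S_SAT`).  Let `Π = ∏_{l ∈ P} l`, `N = Π * ⌈Y⌉₊`, `T' = {p | ∀ l ∈ P, p ∈ Sat l T}`.  It
satisfies `P1`, `P2` at all `l ∈ P` (subset of `Sat l T`).  By the Chinese remainder theorem for each `α` the
number of the `m ∈ [0, N)` with `(α, m) ∈ T'` is exactly `N ∏_{l ∈ P} om T l α / l`.  So by `S_COR` with
`M = N ≥ Y`: `∑_α N ∏ om / l ≤ C Y^n N / (1 + log Y)`. -/
def S_FSA : Prop := ∀ (L : Type) [Field L] [NumberField L], 3 ≤ Module.finrank ℚ L → ∀ B : ℕ, B ≠ 0 →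
  ∃ C : ℝ, 0 < C ∧ ∀ (T : Set (𝓞 L × ℤ)), (∀ l : ℕ, l.Prime → ¬ l ∣ B → P1 l T ∧ P2 l T) →
  ∀ (Y : ℝ) (P : Finset ℕ) (A : Finset (𝓞 L)), 1 ≤ Y → (∀ l ∈ P, l.Prime ∧ ¬ l ∣ B) →
    (∀ l : ℕ, l.Prime → ¬ l ∣ B → (l : ℝ) ^ 2 ≤ Y → l ∈ P) →
    (∀ α ∈ A, ∀ σ : L →+* ℂ, ‖σ (α : L)‖ ≤ Y) →
    (∑ α ∈ A, ∏ l ∈ P, (om T l α : ℝ) / l) * (1 + Real.log Y) ≤ C * Y ^ Module.finrank ℚ L

/-- JOB FSM. The mean value of the local densities of `α`, over `m`.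
Proof (from `S_COR`, `S_SAT`).  Let `Π = ∏_{l ∈ P} l`, `N = Π * ⌈M⌉₊`, `T' = {p | ∀ l ∈ P, p ∈ Sat l T}`.  The
elements `α = ∑ x_i b_i`, `0 ≤ x_i < N` (`b` the integral basis of `𝓞 L`) satisfy `|σ α| ≤ C1 N`, `C1 ≥ 1`, and
for each `m` exactly `N^n ∏_{l ∈ P} oma T l m / l^n` of them satisfy `(α, m) ∈ T'` (Chinese remainder
theorem).  So by `S_COR` with `Y = C1 N ≥ M`: `∑_m N^n ∏ oma / l^n ≤ C (C1 N)^n M / (1 + log M)`. -/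
def S_FSM : Prop := ∀ (L : Type) [Field L] [NumberField L], 3 ≤ Module.finrank ℚ L → ∀ B : ℕ, B ≠ 0 →
  ∃ C : ℝ, 0 < C ∧ ∀ (T : Set (𝓞 L × ℤ)), (∀ l : ℕ, l.Prime → ¬ l ∣ B → P1 l T ∧ P2 l T) →
  ∀ (M : ℝ) (P : Finset ℕ) (S : Finset ℤ), 1 ≤ M → (∀ l ∈ P, l.Prime ∧ ¬ l ∣ B) →
    (∀ l : ℕ, l.Prime → ¬ l ∣ B → (l : ℝ) ^ 2 ≤ M → l ∈ P) →
    (∀ m ∈ S, |(m : ℝ)| ≤ M) →
    (∑ m ∈ S, ∏ l ∈ P, (oma T l m : ℝ) / (l : ℝ) ^ Module.finrank ℚ L) * (1 + Real.log M) ≤ C * M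

/-! ## Part 2: `m` small -/

/-- JOB CNT1. The number of the classes of `α` modulo `l` for a fixed `m`.
Proof: adapt `Q277.OD.cnt2` (`Pool/Agent/Q277/OD/Cnt2.lean`).  Units: at most `∏ (|k_v| - 1) ≤
l^n (1 - N/l + n²/l²)` classes.  `α ∈ v0`, `N v0 = l`, and `α` a unit at the other primes: by `P2` the
products `α α'` are squares modulo the primes `v ≠ v0` (`m` is a unit and the same for all), so
these `α` lie in one class of `R^*/R^{*2}`, `R = ∏_{v ≠ v0} k_v`, a group with at least 2 elements (`n ≥ 2`, `l`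
unramified and odd): at most `l^(n-1) / 2` classes for each of the `N` primes `v0`. -/
def S_CNT1 : Prop := ∀ (L : Type) [Field L] [NumberField L] (l : ℕ), l.Prime → l ≠ 2 →
  2 ≤ Module.finrank ℚ L →
  Squarefree (Ideal.span {(l : 𝓞 L)}) → ∀ T : Set (𝓞 L × ℤ), P1 l T → P2 l T →
  ∀ m : ℤ, ¬ (l : ℤ) ∣ m →
  (((Ideal.Quotient.mk (Ideal.span {(l : 𝓞 L)}) '' {α : 𝓞 L | (α, m) ∈ T}).ncard : ℕ) : ℝ) ≤
    (l : ℝ) ^ Module.finrank ℚ L *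
      (1 - N1 L l / (2 * l) + ((Module.finrank ℚ L : ℝ) + 1) ^ 2 / (l : ℝ) ^ 2)

/-- JOB ASV. The sieve for `α`, with fixed `m`.
Proof (from `EL.S_SIEVE`, `EL.S_SUMS`, `EL.S_RAM`, `S_CNT1`, `S_SAT`).  Let
`S = {α | (α, m) ∈ T, |σ α| ≤ Y}`, `q = ∏_{l ∈ P, l ∣ m} l ≤ |m| ≤ √Y`.  The image of `S` in `𝓞/q` injects into
`∏_{l ∣ q} 𝓞/l` and has at most `∏_{l ∣ q} oma T l m` elements.  For one class choose `α0 ∈ S` in it; the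
other elements are `α0 + q β`, `|σ β| ≤ 2 Y / q`; let `T'` be the set of these `β`.  Modulo a prime `l ∤ q` the
map `β ↦ α0 + q β` is bijective.  For `l ∈ P`, `l ∤ m`, the number of the classes of `T'` is `≤ oma T l m`, which
is `≥` the number of the units of `𝓞/l`, `≥ l^n (1 - n/l)` (all pairs `(α, m)`, `α` a unit at `l`, are in
`Sat l T`); `η l = 1 - oma T l m / l^n ≤ n / l` (use only the `l` with `η l > 0`).  For `l ∈ R`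
`η l = N1 l / (2 l) - (n+1)² / l²` (`S_CNT1` for `T`; only the `l` with `N1 l ≥ 1`, `l > 4 (n+1)²`,
`l ∤ 2`, `l` unramified).  `S_SIEVE` for `2 Y / q ≥ √Y` and `S_SUMS` with `Q = ⌊√(2 Y / q)⌋₊` (all primes in
`P ∪ R` are `≤ Y^(1/4) ≤ Q`) give at most `C (Y/q)^n exp (- ∑ η)` elements in each class, and
`exp (- η) ≤ (1 - η) exp (C/l²)` for `η ≤ n/l ≤ 1/2`; the finitely many `l ≤ 2 n` in `P` with `l ∤ m`:
`oma T l m ≥ 1`, a constant factor. -/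
def S_ASV : Prop := ∀ (L : Type) [Field L] [NumberField L], 3 ≤ Module.finrank ℚ L → ∀ B : ℕ, B ≠ 0 →
  ∃ C : ℝ, 0 < C ∧ ∀ (T : Set (𝓞 L × ℤ)), (∀ l : ℕ, l.Prime → ¬ l ∣ B → P1 l T ∧ P2 l T) →
  ∀ (m : ℤ) (Y : ℝ) (P R : Finset ℕ), m ≠ 0 → 1 ≤ Y → (m : ℝ) ^ 2 ≤ Y → Disjoint P R →
    (∀ l ∈ P, l.Prime ∧ ¬ l ∣ B ∧ (l : ℝ) ^ 4 ≤ Y) →
    (∀ l ∈ R, l.Prime ∧ ¬ l ∣ B ∧ (l : ℝ) ^ 4 ≤ Y ∧ ¬ (l : ℤ) ∣ m) →
    {α : 𝓞 L | (α, m) ∈ T ∧ ∀ σ : L →+* ℂ, ‖σ (α : L)‖ ≤ Y}.Finite ∧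
    (({α : 𝓞 L | (α, m) ∈ T ∧ ∀ σ : L →+* ℂ, ‖σ (α : L)‖ ≤ Y}.ncard : ℕ) : ℝ) ≤
      C * Y ^ Module.finrank ℚ L * (∏ l ∈ P, (oma T l m : ℝ) / (l : ℝ) ^ Module.finrank ℚ L) *
        Real.exp (- (1 / 2 * ∑ l ∈ R, (N1 L l : ℝ) / l))

/-- JOB REGB. The boxes with small `m`.
Proof (from `S_FSM`, `S_ASV`, `S_MER`, `EL.S_RAM`).  Let `P = {l prime | l ∤ B, l² ≤ M}`,
`R = R_m = {l prime | l ∤ B m, M < l², l^4 ≤ Y}`.  By `S_ASV` the number is at most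
`C Y^n ∑_{m ≤ M} ∏_{l ∈ P} oma / l^n * exp (- (1/2) ∑_{R} N1/l)`.  `N1 ≤ n`; `m` has at most 2 prime factors
`> √M` (for `M ≥ 2`), which contribute at most `2 n / √M`; the primes dividing `B` contribute `O(1)`; so
(for `M ≥ 9`, `Y ≥ 81`) `∑_R N1 / l ≥ log log Y - log log M - C` (`S_MER`).  Then `S_FSM`.  For `M < 9`: finitely
many `m` (replace `M` by `9` and `T` by `{p ∈ T | p.2 ≤ M}`, if `Y ≥ 9^4`); for `Y < 9^4`: trivial bound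
(finitely many pairs). -/
def S_REGB : Prop := ∀ (L : Type) [Field L] [NumberField L], 3 ≤ Module.finrank ℚ L → ∀ B : ℕ, B ≠ 0 →
  ∃ C : ℝ, 0 < C ∧ ∀ (T : Set (𝓞 L × ℤ)), (∀ l : ℕ, l.Prime → ¬ l ∣ B → P1 l T ∧ P2 l T) →
  ∀ Y M : ℝ, 1 ≤ M → M ^ 4 ≤ Y →
    {p ∈ T | 1 ≤ p.2 ∧ (p.2 : ℝ) ≤ M ∧ ∀ σ : L →+* ℂ, ‖σ (p.1 : L)‖ ≤ Y}.Finite ∧
    (({p ∈ T | 1 ≤ p.2 ∧ (p.2 : ℝ) ≤ M ∧ ∀ σ : L →+* ℂ, ‖σ (p.1 : L)‖ ≤ Y}.ncard : ℕ) : ℝ) *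
      ((1 + Real.log Y) ^ (1 / 2 : ℝ) * (1 + Real.log M) ^ (1 / 2 : ℝ)) ≤
      C * Y ^ Module.finrank ℚ L * M

/-! ## Part 3: `α` small -/

/-- JOB MSV. The sieve for `m`, with fixed `α`.
Proof (from `EL.S_LSV` for `k = 1`, or `EL.S_SIEVE` for `ℚ`, and `EL.S_SUMS`).  Let
`q = ∏_{l ∈ P, l ∣ N(α)} l ≤ |N(α)| ≤ √M`.  The `m` in question lie in at most `∏_{l ∣ q} om T l α` classes modulo `q`.
For `l ∈ P`, `l ∤ N(α)`, `α` is a unit at `l`, so `(α, m) ∈ Sat l T` for all `m` prime to `l`: `om T l α ∈ {l - 1, l}`.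
Let `R'` be the set of the `l ∈ P`, `l ∤ N(α)`, with `om T l α = l - 1`, together with `R`.  In one class modulo
`q` the numbers are `m = r + q m'`, `0 ≤ m' ≤ M/q`, and `m'` avoids one class modulo `l` for every `l ∈ R'`
(`l ∤ q`).  The large sieve (`η l = 1/l`) gives at most `C (M/q) exp (- ∑_{R'} 1/l)`, as all the primes are
`≤ M^(1/4) ≤ √(M/q)`.  And `∏ exp (-1/l) ≤ C ∏ (1 - 1/l)`. -/
def S_MSV : Prop := ∀ (L : Type) [Field L] [NumberField L], ∀ B : ℕ, B ≠ 0 →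
  ∃ C : ℝ, 0 < C ∧ ∀ (T : Set (𝓞 L × ℤ)), (∀ l : ℕ, l.Prime → ¬ l ∣ B → P1 l T ∧ P2 l T) →
  ∀ (α : 𝓞 L) (M : ℝ) (P R : Finset ℕ) (S : Finset ℕ), α ≠ 0 → 1 ≤ M →
    ((Ideal.absNorm (Ideal.span {α}) : ℕ) : ℝ) ^ 2 ≤ M → Disjoint P R →
    (∀ l ∈ P, l.Prime ∧ ¬ l ∣ B ∧ (l : ℝ) ^ 4 ≤ M) → (∀ l ∈ R, l.Prime ∧ (l : ℝ) ^ 4 ≤ M) →
    (∀ m ∈ S, 1 ≤ m ∧ (m : ℝ) ≤ M ∧ (∀ l ∈ P, (α, (m : ℤ)) ∈ Sat l T) ∧ ∀ l ∈ R, ¬ l ∣ m) →
    (S.card : ℝ) ≤ C * M * (∏ l ∈ P, (om T l α : ℝ) / l) * Real.exp (- ∑ l ∈ R, (1 : ℝ) / l)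

/-- JOB PSI. The characters.
Proof.  `n` is odd, `n ≥ 3`.  Let `B` be divisible by `2` and by the ramified primes (`EL.S_RAM`).  If
`l ∤ B` and `N1 L l ≥ 1`, fix a prime `v0` of norm `l`, and let `U` be the set of the other primes above `l`;
`∑_{v ∈ U} f_v = n - 1` is even and `≥ 2`, so `U ≠ ∅`.  `ψ_l(α) = ∏_{v ∈ U} χ_v(α)`, `χ_v` the quadratic character of
the finite field `𝓞/v` (`quadraticChar`), `χ_v(0) = 0`.  For `c ∈ ℤ` prime to `l` `χ_v(c) = χ_l(c)^(f_v)`, so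
`ψ_l(c) = 1`.  If `c α β ≡ g²` at all `v` then `ψ_l(α β) = 1`.  `neg`: by the Chinese remainder theorem there is a
`u` which is a nonsquare unit modulo one `v ∈ U` and `≡ 1` modulo the other primes above `l`.  For the
other `l` put `ψ_l = 1`. -/
def S_PSI : Prop := ∀ (L : Type) [Field L] [NumberField L], Odd (Module.finrank ℚ L) →
  3 ≤ Module.finrank ℚ L → ∃ (B : ℕ) (ψ : ℕ → 𝓞 L → ℝ), B ≠ 0 ∧ Chr L B ψ

/-- JOB LSF. The large sieve for characters.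
Proof (from `Pool.Agent.TH194.BL.S_ADD`, proved there as `add`).  Coordinates with respect to the integral
basis: `α ∈ 𝓞 L ↦ x ∈ ℤ^n`, `|x_i| ≤ C1 W` (as in `Q247.EL.sieve`); after a shift they are in `[1, N]^n`,
`N ≤ C2 W`.  `ψ_l` is a function on `𝓞/l = (ℤ/l)^n` with `|ψ_l| ≤ 1` and mean value zero
(`x ↦ u x` is a bijection of `𝓞/l` and `ψ_l(u x) = - ψ_l(x)`).  Fourier expansion
`ψ_l(x) = ∑_{y ∈ (ℤ/l)^n} a(y) e(x y / l)`, `a(0) = 0`, `∑ |a(y)|² = l^(-n) ∑ |ψ_l|² ≤ 1` (Parseval).  By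
Cauchy's inequality `(∑_a c(a) ψ_l(a))² ≤ ∑_{y ≠ 0} |∑_a c(a) e(a y / l)|²`, and the sum over `l ≤ R` is
at most `(6 (N + R²))^n ∑ |c|²` by `S_ADD` (the vectors `y / l`, `y ≠ 0`, are different elements of
`(Far R)^n`, where a coordinate `0` is `0/1`; compare `LSK`/`low_prime` in `TH194.BL`). -/
def S_LSF : Prop := ∀ (L : Type) [Field L] [NumberField L], ∃ C : ℝ, 0 < C ∧
  ∀ (B : ℕ) (ψ : ℕ → 𝓞 L → ℝ), Chr L B ψ →
  ∀ (W R : ℝ) (P : Finset ℕ) (A : Finset (𝓞 L)) (c : 𝓞 L → ℝ), 1 ≤ W → 1 ≤ R →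
    (∀ l ∈ P, l.Prime ∧ ¬ l ∣ B ∧ 1 ≤ N1 L l ∧ (l : ℝ) ≤ R) →
    (∀ α ∈ A, ∀ σ : L →+* ℂ, ‖σ (α : L)‖ ≤ W) →
    ∑ l ∈ P, (∑ α ∈ A, c α * ψ l α) ^ 2 ≤ (C * (W + R ^ 2)) ^ Module.finrank ℚ L * ∑ α ∈ A, c α ^ 2

open Classical in
/-- JOB FAC. The number of the factorisations.
Proof.  (i) Ideals: for a nonzero ideal `I` of `𝓞 L` with `h` prime factors (with multiplicity) the
number of the `b : Fin k → ideals` with `∏ b_i = I` is at most `k^h` (`k ≥ 1`): induction on `h`; if `I = 𝔭 I'` then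
`𝔭` divides some `b_i`, replace it by `b_i / 𝔭`.  (ii) For two balanced elements `β, β'` which generate the
same ideal, `u = β'/β` is a unit with `|σ u| ≤ K'` for all `σ` (`|σ β'| ≤ K'' N^(1/n)` and `|σ β| ≥ N^(1/n) / K''`,
since the product of all `|σ β|` is `N`); there are finitely many such units
(`NumberField.Embeddings.finite_of_norm_le`), at most `U`. -/
def S_FAC : Prop := ∀ (L : Type) [Field L] [NumberField L] (K : ℝ), ∃ U : ℝ, 1 ≤ U ∧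
  ∀ (k : ℕ) (A : Finset (𝓞 L)) (a : 𝓞 L), 1 ≤ k → (∀ α ∈ A, Nice K α) →
    (((Fintype.piFinset (fun _ : Fin k => A)).filter (fun x => ∏ i, x i = a)).card : ℝ) ≤
      U ^ k * (k : ℝ) ^ Om a

/-- JOB OMG. The number of the prime factors.
Proof.  `Om α ≤ K + ω(N)`, `N = |N(α)| ≤ Y^n`, and `ω(N)! ≤ N`, so
`ω log (ω / e) ≤ n log Y`, `ω ≤ C log Y / log log Y`. -/
def S_OMG : Prop := ∀ (L : Type) [Field L] [NumberField L] (K : ℝ), ∃ C : ℝ, 0 < C ∧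
  ∀ (Y : ℝ) (α : 𝓞 L), 16 ≤ Y → Nice K α → (∀ σ : L →+* ℂ, ‖σ (α : L)‖ ≤ Y) →
    (Om α : ℝ) ≤ C * Real.log Y / Real.log (Real.log Y)

/-- JOB MOM. High moments.
Proof (from `S_LSF`, `S_FAC`, `S_OMG`).  `n = [L : ℚ]`.  Let `k ≥ 2` be the smallest integer with
`4 R² ≤ Y^k`; so `Y^k ≤ 4 R² Y ≤ 4 R^4`, and `k ≤ 3 (log Y)^b + 3`.  With `d(a)` = the number of the
`x ∈ A^k` with `∏ x_i = a`: `(∑_{α ∈ A} ψ_l(α))^k = ∑_a d(a) ψ_l(a)`, `|σ a| ≤ Y^k`, so by `S_LSF` (`W = Y^k`)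
`∑_l |∑_{α ∈ A} ψ_l(α)|^(2k) ≤ (2 C Y^k)^n ∑ d(a)²`, `∑ d(a)² ≤ |A|^k max d`,
`max d ≤ U^k k^(max Om)`, and `Om a = ∑ Om (x_i) ≤ k C4 log Y / log log Y`.  So the number of the `l` in
question is at most
`(2C)^n Y^(n k) |A|^k U^k k^(k C4 log Y / log log Y) / (|A|/4)^(2k) ≤
(2C)^n ((log Y)^3 * 16 * U * k^(C4 log Y / log log Y))^k`, and for small `b` and large `Y`
`k^(C4 log Y / log log Y) ≤ Y^(1/20)`, the whole is `≤ C Y^(k/10) ≤ C (4 R^4)^(1/10) ≤ R^(9/10)`. -/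
def S_MOM : Prop := ∀ (L : Type) [Field L] [NumberField L] (B : ℕ) (ψ : ℕ → 𝓞 L → ℝ) (K : ℝ),
  Chr L B ψ → ∃ b Y0 : ℝ, 0 < b ∧ 16 ≤ Y0 ∧ ∀ (Y R : ℝ) (A : Finset (𝓞 L)) (P : Finset ℕ), Y0 ≤ Y →
    Real.sqrt Y ≤ R → Real.log R ≤ Real.log Y ^ (1 + b) →
    (∀ α ∈ A, Nice K α ∧ ∀ σ : L →+* ℂ, ‖σ (α : L)‖ ≤ Y) →
    Y ^ Module.finrank ℚ L ≤ A.card * Real.log Y ^ 3 →
    (∀ l ∈ P, l.Prime ∧ ¬ l ∣ B ∧ 1 ≤ N1 L l ∧ (l : ℝ) ≤ 2 * R ∧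
      (A.card : ℝ) / 4 < |∑ α ∈ A, ψ l α|) →
    (P.card : ℝ) ≤ R ^ (9 / 10 : ℝ)

open Classical in
/-- JOB EXC. The exceptional set.
Proof (from `S_MOM`, `S_MER`).  Let `a > 1` be a large constant, `z = √Y`, `P_s = z^(a^s)`,
`I_s = (P_s, P_(s+1)]`, `s ≥ 0`, `log P_(s+1) ≤ (log Y)^(1 + b)`, and
`S_s = ∑ 1/l` over the primes `l ∈ I_s`, `l ∤ B`, `N1 L l ≥ 1`.  By `S_MER`
`∑_{l ∈ I_s} N1 / l ≥ log a - 2 C`, so `S_s ≥ c > 0` (`N1 ≤ n`).  Let `E_s` be the set of the `α ∈ A` with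
`∑_{l ∈ I_s, ψ_l(α) = - ε_l} 1/l < S_s / 8`.  For `α ∈ E_s`, `∑_{l ∈ I_s} ε_l ψ_l(α) / l ≥
S_s - 2 S_s / 8 - 2 ∑_{l ∣ N(α), l > z} 1/l ≥ (5/8) S_s` (by `Chr.unit` `ψ_l(α) = ± 1` if `l ∤ N(α)`; and `N(α) ≤ Y^n` has
at most `2 n` prime factors `> z`).  So `∑_{l ∈ I_s} |∑_{α ∈ E_s} ψ_l(α)| / l ≥ (5/8) S_s |E_s|`.  If
`|E_s| ≥ Y^n / log³ Y`, then by `S_MOM`, for every dyadic interval `(R, 2R]`, `|∑_{E_s} ψ_l(α)| ≤ |E_s|/4` except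
for at most `R^(9/10)` primes, so the sum is
`≤ |E_s| (S_s / 4 + ∑_{R = 2^i P_s} R^(9/10) / R) < (5/8) S_s |E_s|` for large `Y`, a contradiction.  `E = ⋃ E_s`;
there are at most `C log log Y ≤ log Y` values of `s`.  For `α ∉ E` the sum up to `Z` is at least
`(c/8)` times the number of the `s` with `P_(s+1) ≤ Z`, which is `≥ log (log Z / log z) / log a - 1`.
(`b` of the conclusion: the minimum of `b` of `S_MOM` and `c / (8 log a)`; use `log Z ≥ log z` to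
make the factor smaller.) -/
def S_EXC : Prop := ∀ (L : Type) [Field L] [NumberField L] (B : ℕ) (ψ : ℕ → 𝓞 L → ℝ) (K : ℝ), B ≠ 0 →
  Chr L B ψ → ∃ b C Y0 : ℝ, 0 < b ∧ 16 ≤ Y0 ∧ ∀ (Y : ℝ) (ε : ℕ → ℝ) (A : Finset (𝓞 L)), Y0 ≤ Y →
    (∀ l, ε l = 1 ∨ ε l = -1) → (∀ α ∈ A, Nice K α ∧ ∀ σ : L →+* ℂ, ‖σ (α : L)‖ ≤ Y) →
    ∃ E ⊆ A, (E.card : ℝ) * Real.log Y ^ 2 ≤ Y ^ Module.finrank ℚ L ∧
      ∀ α ∈ A, α ∉ E → ∀ Z : ℝ, Real.sqrt Y ≤ Z → Real.log Z ≤ Real.log Y ^ (1 + b) →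
        b * Real.log (Real.log Z / Real.log Y) - C ≤
          ∑ l ∈ (pr Z).filter (fun l : ℕ => Real.sqrt Y < (l : ℝ) ∧ ¬ l ∣ B ∧ 1 ≤ N1 L l ∧
            ψ l α = - ε l),
            (1 : ℝ) / l

/-- JOB REGC. The boxes with small `α`.
Proof (from `S_PSI`, `S_EXC`, `S_FSA`, `S_MSV`, `S_SAT`, `S_COR`).  Let `ψ`, `B1` be as in `S_PSI`, `B' = B B1`.  For a
prime `l ∤ B'` with `N1 ≥ 1` such that there is a pair in `T` with `l ∣ m`, let `ε_l = ψ_l(α)`, which is the same for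
all these pairs (`P2` and `Chr.coset`; `α` is a unit at `l` by `P1`); for the other `l` put `ε_l = 1`.  So
`(α, m) ∈ T`, `ψ_l(α) = - ε_l` imply `l ∤ m`.  Let `Y ≥ Y0`, `A` = the set of the `α` of the box (finite),
`E ⊆ A` from `S_EXC`.  The pairs with `α ∈ E` are at most `|E| M ≤ Y^n M / log² Y`.  For `α ∉ E`:
`P = {l prime | l ∤ B, l² ≤ Y}`, `R = {l prime | √Y < l ≤ Z, l ∤ B', N1 ≥ 1, ψ_l(α) = - ε_l}`,
`log Z = min (log M / 4, (log Y)^(1+b))`; `S_MSV` gives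
`≤ C M ∏_{l ∈ P} om/l * (log Z / log Y)^(-b)`, and `S_FSA` `∑_α ∏ om/l ≤ C Y^n / log Y`.
`(log Z / log Y)^(-b) ≤ (4 log Y / log M)^b + (log Y)^(- b²)`; make the exponent of the conclusion the
smaller one (`log Y ≤ log M`).  For `Y < Y0` the trivial bound (`S_COR`).  `|N(α)|² ≤ Y^(2n) ≤ M`. -/
def S_REGC : Prop := ∀ (L : Type) [Field L] [NumberField L], Odd (Module.finrank ℚ L) →
  3 ≤ Module.finrank ℚ L → ∀ (B : ℕ) (K : ℝ), B ≠ 0 →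
  ∃ b C : ℝ, 0 < b ∧ b < 1 ∧ 0 < C ∧
  ∀ (T : Set (𝓞 L × ℤ)), (∀ l : ℕ, l.Prime → ¬ l ∣ B → P1 l T ∧ P2 l T) → (∀ p ∈ T, Nice K p.1) →
  ∀ Y M : ℝ, 1 ≤ Y → Y ^ (2 * Module.finrank ℚ L) ≤ M →
    {p ∈ T | 1 ≤ p.2 ∧ (p.2 : ℝ) ≤ M ∧ ∀ σ : L →+* ℂ, ‖σ (p.1 : L)‖ ≤ Y}.Finite ∧
    (({p ∈ T | 1 ≤ p.2 ∧ (p.2 : ℝ) ≤ M ∧ ∀ σ : L →+* ℂ, ‖σ (p.1 : L)‖ ≤ Y}.ncard : ℕ) : ℝ) ≤
      C * Y ^ Module.finrank ℚ L * M * ((1 + Real.log Y) ^ (-(1 + b)) +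
        (1 + Real.log Y) ^ (-(1 - b)) * (1 + Real.log M) ^ (-b))

/-! ## Part 4: the sum over the boxes, and the Selmer groups -/

/-- JOB BOX2. The number of the pairs.
Proof (from `S_COR`, `S_REGB`, `S_REGC`).  We may assume `C0 ≥ 1`.  `0 ≤ j ≤ J = ⌊log₂ X⌋`, box `j`:
`2^j ≤ m < 2^(j+1) = M_j`, `|σ α| ≤ Y_j = C0 (X / 2^j)^(1/n)`, `Y_j ≥ 1`, `Y_j^n M_j = 2 C0^n X`.  If `M_j^4 ≤ Y_j`: by
`S_REGB` at most `C X (1 + log Y_j)^(-1/2) (1 + log M_j)^(-1/2) ≤ C' X (1 + J)^(-1/2) (1 + j)^(-1/2)`.  If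
`Y_j^(2n) ≤ M_j`: by `S_REGC` at most `C' X ((1 + i)^(-1-b) + (1 + i)^(-1+b) (1 + J)^(-b))`, `i = J - j`.
Otherwise `log Y_j, log M_j ≥ c (1 + J)` (if `X` is large, for the other `X` use the trivial bound) and by `S_COR`
at most `C' X / (1 + J)`.  The sum over `j` is `O(X)`. -/
def S_BOX2 : Prop := ∀ (L : Type) [Field L] [NumberField L], Odd (Module.finrank ℚ L) →
  3 ≤ Module.finrank ℚ L → ∀ (B : ℕ) (K C0 : ℝ), B ≠ 0 → 0 < C0 → ∃ C : ℝ, 0 < C ∧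
  ∀ (T : Set (𝓞 L × ℤ)), (∀ l : ℕ, l.Prime → ¬ l ∣ B → P1 l T ∧ P2 l T) → (∀ p ∈ T, Nice K p.1) →
  ∀ X : ℝ, 1 ≤ X →
    {p ∈ T | 1 ≤ p.2 ∧ (p.2 : ℝ) ≤ X ∧
      ∀ σ : L →+* ℂ, ‖σ (p.1 : L)‖ ≤ C0 * (X / p.2) ^ ((1 : ℝ) / Module.finrank ℚ L)}.Finite ∧
    (({p ∈ T | 1 ≤ p.2 ∧ (p.2 : ℝ) ≤ X ∧
      ∀ σ : L →+* ℂ, ‖σ (p.1 : L)‖ ≤ C0 * (X / p.2) ^ ((1 : ℝ) / Module.finrank ℚ L)}.ncard : ℕ) : ℝ) ≤
      C * X

/-- JOB NICE. The elements `α` of the descent are nice.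
Proof.  `|N(α)| = ∏_v (N v)^(v(α))`.  For a prime `v` above `l ∤ B`: `v(α) = 0`, or `v(α) = 1` and `v = v0(l)`,
`N v0 = l`, for the `l ∣ D` with `l ∤ m`; let `R` be the set of these `l`.  So `|N(α)| = b ∏_{l ∈ R} l`, `b` the
contribution of the primes above the `l ∣ B`.  `|D| = ∏_{l ∈ R} l * ∏_{l ∣ D, l ∤ B, l ∣ m} l * ∏_{l ∣ D, l ∣ B} l ≤
(∏_R l) m B`.  So `|N(α)| ≥ |D| / (m B)`, and `|σ α|^n ≤ C^n |D| / m ≤ C^n B |N(α)|`.  Moreover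
`|N(α)| = ∏_σ |σ α| ≤ C^n |D| / m ≤ C^n B ∏_R l`, so `b ≤ C^n B`, and the number of the prime factors of `α` above
the `l ∣ B` is at most `log₂ b`; the others are the `v0(l)`, `l ∈ R`, and `l ∣ N(α)` for these. -/
def S_NICE : Prop := ∀ (L : Type) [Field L] [NumberField L] (B : ℕ) (t : 𝓞 L) (κ : ℤ) (C : ℝ), B ≠ 0 →
  0 < C → ∃ K : ℝ, ∀ (D : ℤ) (α : 𝓞 L) (m : ℤ), Squarefree D → α ≠ 0 → Gd B t κ D α m → 1 ≤ m →
    (m : ℝ) ≤ D.natAbs →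
    (∀ σ : L →+* ℂ, ‖σ (α : L)‖ ≤ C * ((D.natAbs : ℝ) / m) ^ ((1 : ℝ) / Module.finrank ℚ L)) →
    Nice K α

open Classical in
/-- JOB SELC. The sum of the numbers of the everywhere locally soluble coverings of all twists.
Proof (from `OS.S_DESC2`, `OS.S_TY2O`, `S_BOX2`, `S_NICE`; proofs `Pool.Agent.Q161.OS.t_desc2`,
`Pool.Agent.Q237.OS.ty2o`).  Let `B, C0` be as in `S_DESC2`.  For every `D` and `δ ∈ F D`, `δ = d(θ)`, choose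
`(κ, α, m)` from `S_DESC2`.  For `κ ∣ B` let `T κ` be the set of the `(α, m)` such that for some squarefree `D`
all the conclusions of `S_DESC2` hold; it satisfies `P1, P2` and `Nice K`.  The map `(D, δ) ↦ (κ, α, m)`
has fibres with at most `2^(1 + ω(B))` elements: `D` is determined by `(α, m)` up to the sign and the primes
dividing `B` (for `l ∤ B`: `l ∣ D` iff `l ∣ m` or `α` is not a unit at `l`, by `Gd`), and for given `D` the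
element `δ` is determined, since `α = c δ η²`, `α = c' δ' η'²` give `Tr (δ δ')`.  The number of the pairs is
`≤ C X` by `S_BOX2` (`|σ α| ≤ C0 (|D|/m)^(1/n) ≤ C0 (X/m)^(1/n)`). -/
def S_SELC : Prop := ∀ (f : ℤ[X]) (L : Type) [Field L] [NumberField L] (θ : L), Setup f L θ →
  Odd f.natDegree → 3 ≤ f.natDegree → ∀ t : 𝓞 L, (t : L) = f.leadingCoeff * θ →
  ∃ C : ℝ, 0 < C ∧ ∀ F : ℤ → Finset L,
    (∀ D : ℤ, ∀ δ ∈ F D, δ ≠ 0 ∧ ∃ d : ℚ[X], aeval θ d = δ ∧ ∀ (p : ℕ) [Fact p.Prime],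
      Cov f d (((f.leadingCoeff * D : ℤ) : ℚ) * Algebra.norm ℚ (aeval θ d)) ℚ_[p]) →
    (∀ D : ℤ, ∀ δ ∈ F D, ∀ δ' ∈ F D, δ ≠ δ' → ¬ Tr L (δ * δ')) →
    ∀ X : ℝ, 1 ≤ X →
      ((∑ D ∈ (Icc (-⌊X⌋) ⌊X⌋).filter (fun D : ℤ => Squarefree D), (F D).card : ℕ) : ℝ) ≤ C * X

end Pool.Agent.Q161.EA
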