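import Pool.Agent.Q161.EA.Goal
import Pool.Agent.Q182.EA.Mer
import Pool.Agent.Q26.EA.Cor
import Pool.Agent.Q26.EA.Sat
import Pool.Agent.Q223.EA.FSA
import Pool.Agent.Q92.EA.FSM
import Pool.Agent.Q195.EA.Cnt1
import Pool.Agent.Q150.EA.Asv
import Pool.Agent.Q208.EA.Regb
import Pool.Agent.Q208.EA.Msv
import Pool.Agent.Q237.EA.Psi
import Pool.Agent.Q237.EA.Lsf
import Pool.Agent.Q195.EA.Fac
import Pool.Agent.Q195.EA.Omg
import Pool.Agent.Q237.EA.Mom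
import Pool.Agent.Q63.EA.Exc
import Pool.Agent.Q63.EA.Regc
import Pool.Agent.Q63.EA.Box2
import Pool.Agent.Q224.EA.NICE
import Pool.Agent.Q224.EA.SELC
import Pool.Agent.Q68.EA.GRP2
import Pool.Agent.Q68.EA.K90
import Pool.Agent.Q26.EA.Kd
import Pool.Agent.Q26.EA.Emb
import Pool.Agent.Q68.EA.KI
import Pool.Agent.Q68.EA.KL
import Pool.Agent.Q26.EA.Sha
import Pool.Agent.Q211.OD.SIEVE2
import Pool.Agent.Q277.OD.Cnt2
import Pool.Agent.Q91.EL.Sums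
import Pool.Agent.Q91.EL.Small

/-! # Project EA: all jobs together -/

set_option autoImplicit false

namespace Pool.Agent.Q161.EA

theorem t_mer : S_MER := Pool.Agent.Q182.EA.mer

theorem t_cor : S_COR := Pool.Agent.Q26.EA.cor Pool.Agent.Q211.OD.sieve2 Pool.Agent.Q91.EL.sums
  Pool.Agent.Q277.OD.cnt2 Pool.Agent.Q91.EL.ram t_mer

theorem t_sat : S_SAT := Pool.Agent.Q26.EA.sat

theorem t_fsa : S_FSA := Pool.Agent.Q223.EA.FSA.fsa t_cor t_sat

theorem t_fsm : S_FSM := Pool.Agent.Q92.EA.fsm t_cor t_sat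

theorem t_asv : S_ASV := Pool.Agent.Q150.EA.asv t_sat Pool.Agent.Q195.EA.Cnt1.cnt1

theorem t_regb : S_REGB := Pool.Agent.Q208.EA.regb t_cor t_fsm t_asv t_mer

theorem t_msv : S_MSV := Pool.Agent.Q208.EA.msv t_sat

theorem t_mom : S_MOM := Pool.Agent.Q237.EA.mom Pool.Agent.Q237.EA.lsf Pool.Agent.Q195.EA.Fac.fac
  Pool.Agent.Q195.EA.Omg.omg

theorem t_exc : S_EXC := Pool.Agent.Q63.EA.exc t_mom t_mer

theorem t_regc : S_REGC := Pool.Agent.Q63.EA.regc Pool.Agent.Q237.EA.PSI.psi t_exc t_fsa t_msv t_sat t_cor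

theorem t_box2 : S_BOX2 := Pool.Agent.Q63.EA.box2 t_cor t_regb t_regc

theorem t_selc : S_SELC := Pool.Agent.Q224.EA.selc t_box2 Pool.Agent.Q224.EA.nice

theorem t_kn : S_KN := Pool.Agent.Q26.EA.kn

theorem t_sha : S_SHA := Pool.Agent.Q26.EA.sha (Pool.Agent.Q26.EA.kd k90) t_kn (ki t_kn)
  (kl Pool.Agent.Q26.EA.itp)

theorem t_goal : S_GOAL := goal t_selc t_sha grp2

end Pool.Agent.Q161.EA
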