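import Pool.Agent.Q161.EA.All

/-!
# Short definitions for the statements about the quadratic twists
-/

set_option autoImplicit false

namespace Pool.Agent.Q161.EA

open WeierstrassCurve

open scoped Classical

open Pool.Agent.W262.SH (QB Pt act Sha)

/-- the curve `y² = x³ + a D² x + b D³`, the quadratic twist of `y² = x³ + a x + b` by `D` -/
def curve (a b D : ℤ) : WeierstrassCurve ℚ := ⟨0, 0, 0, a * D ^ 2, b * D ^ 3⟩

theorem curve_eq (a b D : ℤ) : curve a b D = tw a b D := rfl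

/-- the rank of the twist by `D` -/
noncomputable def rank (a b D : ℤ) : ℕ := Module.finrank ℤ (curve a b D).toAffine.Point

/-- the elements `x` with `2 x = 0` of the Tate-Shafarevich group of the twist by `D` -/
def ShaTwo (a b D : ℤ) : Type := {x : Sha (curve a b D) // x + x = 0}

/-- the squarefree integers `D`, `|D| ≤ X` -/
noncomputable def twists (X : ℝ) : Finset ℤ :=
  (Finset.Icc (-⌊X⌋) ⌊X⌋).filter (fun D : ℤ => Squarefree D)

theorem squarefree_of_mem {X : ℝ} {D : ℤ} (h : D ∈ twists X) : Squarefree D := by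
  unfold twists at h
  exact (Finset.mem_filter.1 h).2

theorem irr (a b : ℤ) (h : ∀ x : ℚ, x ^ 3 + a * x + b ≠ 0) :
    Irreducible (Polynomial.X ^ 3 + Polynomial.C (a : ℚ) * Polynomial.X + Polynomial.C (b : ℚ) :
      Polynomial ℚ) := by
  have hdeg : (Polynomial.X ^ 3 + Polynomial.C (a : ℚ) * Polynomial.X + Polynomial.C (b : ℚ) :
      Polynomial ℚ).natDegree = 3 := by compute_degree!
  have hne : (Polynomial.X ^ 3 + Polynomial.C (a : ℚ) * Polynomial.X + Polynomial.C (b : ℚ) :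
      Polynomial ℚ) ≠ 0 := by
    intro h0
    rw [h0] at hdeg
    simp at hdeg
  rw [Polynomial.irreducible_iff_roots_eq_zero_of_degree_le_three (by rw [hdeg]; norm_num)
    (by rw [hdeg])]
  rw [Multiset.eq_zero_iff_forall_notMem]
  intro x hx
  rw [Polynomial.mem_roots hne] at hx
  apply h x
  simpa [Polynomial.IsRoot] using hx

theorem shaTwo_pos (a b D : ℤ) (hf : Finite (ShaTwo a b D)) : 0 < Nat.card (ShaTwo a b D) := by
  have : Nonempty (ShaTwo a b D) := ⟨⟨0, add_zero 0⟩⟩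
  exact Nat.card_pos

/-- the main theorem in terms of the definitions of this file -/
theorem main (a b : ℤ) (h : ∀ x : ℚ, x ^ 3 + a * x + b ≠ 0) :
    (∀ D : ℤ, Squarefree D → Finite (ShaTwo a b D)) ∧
    ∃ C : ℝ, 0 < C ∧ ∀ X : ℝ, 1 ≤ X →
      (∑ D ∈ twists X, ((2 ^ rank a b D * Nat.card (ShaTwo a b D) : ℕ) : ℝ)) ≤ C * X := by
  obtain ⟨h1, C, hC, h2⟩ := t_goal a b (irr a b h)
  refine ⟨fun D hD => (h1 D hD).2.1, C, hC, fun X hX => ?_⟩
  have h3 := h2 X hX
  rw [Nat.cast_sum] at h3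
  refine le_trans (Finset.sum_le_sum fun D hD => ?_) h3
  exact_mod_cast (h1 D (squarefree_of_mem hD)).2.2

theorem rank_sum (a b : ℤ) (h : ∀ x : ℚ, x ^ 3 + a * x + b ≠ 0) :
    ∃ C : ℝ, 0 < C ∧ ∀ X : ℝ, 1 ≤ X → (∑ D ∈ twists X, (2 : ℝ) ^ rank a b D) ≤ C * X := by
  obtain ⟨h1, C, hC, h2⟩ := main a b h
  refine ⟨C, hC, fun X hX => le_trans (Finset.sum_le_sum fun D hD => ?_) (h2 X hX)⟩
  have h3 := shaTwo_pos a b D (h1 D (squarefree_of_mem hD))
  have : 2 ^ rank a b D ≤ 2 ^ rank a b D * Nat.card (ShaTwo a b D) := Nat.le_mul_of_pos_right _ h3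
  exact_mod_cast this

/-- Jensen's inequality for `2 ^ x` -/
theorem jensen {ι : Type} (S : Finset ι) (r : ι → ℕ) (hS : S.Nonempty) (M : ℝ)
    (h : ∑ i ∈ S, (2 : ℝ) ^ r i ≤ M) :
    ∑ i ∈ S, (r i : ℝ) ≤ S.card * Real.logb 2 (M / S.card) := by
  have hc : (0 : ℝ) < S.card := by exact_mod_cast hS.card_pos
  have hconv := strictConvexOn_exp.convexOn.map_sum_le (t := S) (w := fun _ => (1 : ℝ) / S.card)
    (p := fun i => Real.log 2 * r i) (fun i _ => by positivity)
    (by rw [Finset.sum_const, nsmul_eq_mul]; field_simp) (fun i _ => Set.mem_univ _)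
  have h1 : ∀ i, Real.exp (Real.log 2 * (r i : ℝ)) = 2 ^ r i := by
    intro i
    rw [mul_comm, Real.exp_nat_mul, Real.exp_log two_pos]
  simp only [smul_eq_mul, h1] at hconv
  rw [← Finset.mul_sum, ← Finset.mul_sum, ← Finset.mul_sum] at hconv
  have h2 : Real.exp (1 / S.card * (Real.log 2 * ∑ i ∈ S, (r i : ℝ))) ≤ M / S.card := by
    refine hconv.trans ?_
    rw [one_div, div_eq_mul_inv, mul_comm]
    exact mul_le_mul_of_nonneg_right h (by positivity)
  have hM : 0 < M / S.card := lt_of_lt_of_le (Real.exp_pos _) h2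
  have h3 := (Real.le_log_iff_exp_le hM).2 h2
  rw [Real.logb]
  have hl : 0 < Real.log 2 := Real.log_pos one_lt_two
  rw [mul_div_assoc', le_div_iff₀ hl]
  calc (∑ i ∈ S, (r i : ℝ)) * Real.log 2
      = S.card * (1 / S.card * (Real.log 2 * ∑ i ∈ S, (r i : ℝ))) := by field_simp
    _ ≤ S.card * Real.log (M / S.card) := mul_le_mul_of_nonneg_left h3 hc.le

end Pool.Agent.Q161.EA
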