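import Pool.Agent.Q161.EA.Stm2
import Pool.Agent.Q251.SX.Fin
import Pool.Agent.Q161.SX.Ar2

/-! # Project EA: assembly -/

set_option autoImplicit false

namespace Pool.Agent.Q161.EA

open WeierstrassCurve Polynomial NumberField

open scoped Classical

open Pool.Agent.W262.SH (QB Pt act IsCoc IsCob LocTriv shaCoc cob Sha)
open Pool.Agent.Q51.EL (Setup)
open Pool.Agent.Q161.OS (Cov Tr)

lemma f0_map (a b : ℤ) : (X ^ 3 + C a * X + C b : ℤ[X]).map (Int.castRingHom ℚ) =
    X ^ 3 + C (a : ℚ) * X + C (b : ℚ) := by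
  simp [Polynomial.map_add, Polynomial.map_mul, Polynomial.map_pow]

lemma f0_deg (a b : ℤ) : (X ^ 3 + C a * X + C b : ℤ[X]).natDegree = 3 := by
  compute_degree!

lemma disc_ne (a b : ℤ) (h : Irreducible (X ^ 3 + C (a : ℚ) * X + C (b : ℚ) : ℚ[X])) :
    4 * (a : ℚ) ^ 3 + 27 * (b : ℚ) ^ 2 ≠ 0 := by
  intro h0
  have hdeg : (X ^ 3 + C (a : ℚ) * X + C (b : ℚ) : ℚ[X]).natDegree = 3 := by compute_degree!
  -- a rational zero
  have hroot : ∃ r : ℚ, r ^ 3 + a * r + b = 0 := by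
    by_cases ha : (a : ℚ) = 0
    · have hb : (b : ℚ) = 0 := by
        rw [ha] at h0
        have : (b : ℚ) ^ 2 = 0 := by linarith
        exact pow_eq_zero_iff two_ne_zero |>.1 this
      exact ⟨0, by rw [ha, hb]; ring⟩
    · refine ⟨3 * b / a, ?_⟩
      field_simp
      linear_combination b * h0
  obtain ⟨r, hr⟩ := hroot
  have hr' : (X ^ 3 + C (a : ℚ) * X + C (b : ℚ) : ℚ[X]).IsRoot r := by
    simp [Polynomial.IsRoot]
    linear_combination hr
  have := Polynomial.degree_eq_one_of_irreducible_of_root h hr'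
  rw [Polynomial.degree_eq_natDegree h.ne_zero, hdeg] at this
  norm_num at this

theorem goal (h1 : S_SELC) (h2 : S_SHA) (h3 : S_GRP2) : S_GOAL := by
  intro a b hirr
  set f0 : ℤ[X] := X ^ 3 + C a * X + C b with hf0
  have hmap : f0.map (Int.castRingHom ℚ) = X ^ 3 + C (a : ℚ) * X + C (b : ℚ) := f0_map a b
  have hdeg : f0.natDegree = 3 := f0_deg a b
  have hf : Irreducible (f0.map (Int.castRingHom ℚ)) := by rw [hmap]; exact hirr
  obtain ⟨L, i1, i2, θ, hset⟩ := Pool.Agent.Q251.SX.exists_L f0 hf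
  obtain ⟨t, ht⟩ := Pool.Agent.Q161.SX.exists_t hset
  obtain ⟨C, hC, hmain⟩ := h1 f0 L θ hset (by rw [hdeg]; decide) (by rw [hdeg]) t ht
  have hΦ := fun D : ℤ => h2 a b L θ hset D
  -- finite subsets
  have key : ∀ (S : (D : ℤ) → Finset (Sel2 (tw a b D))) (Y : ℝ), 1 ≤ Y →
      ((∑ D ∈ (Finset.Icc (-⌊Y⌋) ⌊Y⌋).filter (fun D : ℤ => Squarefree D), (S D).card : ℕ) : ℝ) ≤
        C * Y := by
    intro S Y hY
    let Φ : (D : ℤ) → (hD : D ≠ 0) → Sel2 (tw a b D) → L := fun D hD => (hΦ D hD).choose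
    have hΦs := fun (D : ℤ) (hD : D ≠ 0) => (hΦ D hD).choose_spec
    let F : ℤ → Finset L := fun D => if hD : D ≠ 0 then (S D).image (Φ D hD) else ∅
    have hinj : ∀ (D : ℤ) (hD : D ≠ 0), Function.Injective (Φ D hD) := by
      intro D hD x y hxy
      apply (hΦs D hD).2
      change Tr L (Φ D hD x * Φ D hD y)
      rw [hxy]
      exact ⟨1, Φ D hD y, by push_cast; ring⟩
    have hF := hmain F (by
      intro D δ hδ
      by_cases hD : D ≠ 0
      · simp only [F, dif_pos hD, Finset.mem_image] at hδ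
        obtain ⟨x, -, rfl⟩ := hδ
        exact (hΦs D hD).1 x
      · simp only [F, dif_neg hD] at hδ
        exact absurd hδ (Finset.notMem_empty _)) (by
      intro D δ hδ δ' hδ' hne htr
      by_cases hD : D ≠ 0
      · simp only [F, dif_pos hD, Finset.mem_image] at hδ hδ'
        obtain ⟨x, -, rfl⟩ := hδ
        obtain ⟨y, -, rfl⟩ := hδ'
        exact hne (congrArg _ ((hΦs D hD).2 x y htr))
      · simp only [F, dif_neg hD] at hδ
        exact absurd hδ (Finset.notMem_empty _)) Y hY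
    refine le_trans (le_of_eq ?_) hF
    congr 1
    refine Finset.sum_congr rfl fun D hD => ?_
    have hD0 : D ≠ 0 := (Finset.mem_filter.1 hD).2.ne_zero
    simp only [F, dif_pos hD0]
    rw [Finset.card_image_of_injective _ (hinj D hD0)]
  -- finiteness
  have hfin : ∀ D : ℤ, Squarefree D → Finite (Sel2 (tw a b D)) := by
    intro D hD
    by_contra hinf
    rw [not_finite_iff_infinite] at hinf
    set Y : ℝ := max 1 (|(D : ℝ)|) with hY
    have hY1 : 1 ≤ Y := le_max_left _ _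
    obtain ⟨s, hs⟩ := Infinite.exists_subset_card_eq (Sel2 (tw a b D)) (⌊C * Y⌋₊ + 1)
    have h4 := key (fun D' => if h : D' = D then h ▸ s else ∅) Y hY1
    have hmem : D ∈ (Finset.Icc (-⌊Y⌋) ⌊Y⌋).filter (fun D : ℤ => Squarefree D) := by
      rw [Finset.mem_filter, Finset.mem_Icc]
      have h5 : |(D : ℝ)| ≤ Y := le_max_right _ _
      have h6 := abs_le.1 h5
      refine ⟨⟨?_, ?_⟩, hD⟩
      · have : -D ≤ ⌊Y⌋ := Int.le_floor.2 (by push_cast; linarith)
        linarith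
      · exact Int.le_floor.2 h6.2
    have h7 : s.card ≤ ∑ D' ∈ (Finset.Icc (-⌊Y⌋) ⌊Y⌋).filter (fun D : ℤ => Squarefree D),
        (if h : D' = D then h ▸ s else ∅ : Finset (Sel2 (tw a b D'))).card := by
      refine le_trans (le_of_eq ?_) (Finset.single_le_sum
        (f := fun D' : ℤ => (if h : D' = D then h ▸ s else ∅ : Finset (Sel2 (tw a b D'))).card)
        (fun _ _ => Nat.zero_le _) hmem)
      simp
    have h8 : ((⌊C * Y⌋₊ + 1 : ℕ) : ℝ) ≤ C * Y := by
      rw [← hs]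
      exact le_trans (by exact_mod_cast h7) h4
    have h9 := Nat.lt_floor_add_one (C * Y)
    push_cast at h8
    linarith
  have hdisc : ∀ D : ℤ, D ≠ 0 → 4 * ((a : ℚ) * D ^ 2) ^ 3 + 27 * ((b : ℚ) * D ^ 3) ^ 2 ≠ 0 := by
    intro D hD
    have hD' : (D : ℚ) ≠ 0 := by exact_mod_cast hD
    have e : 4 * ((a : ℚ) * D ^ 2) ^ 3 + 27 * ((b : ℚ) * D ^ 3) ^ 2 =
        (D : ℚ) ^ 6 * (4 * (a : ℚ) ^ 3 + 27 * (b : ℚ) ^ 2) := by ring
    rw [e]
    exact mul_ne_zero (pow_ne_zero 6 hD') (disc_ne a b hirr)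
  refine ⟨fun D hD => ?_, C, hC, fun Y hY => ?_⟩
  · have := hfin D hD
    obtain ⟨h5, h6⟩ := h3 _ _ (hdisc D hD.ne_zero) this
    exact ⟨this, h5, h6⟩
  · have h4 := key (fun D => if h : Finite (Sel2 (tw a b D)) then
      @Finset.univ _ (@Fintype.ofFinite _ h) else ∅) Y hY
    refine le_trans (le_of_eq ?_) h4
    congr 1
    refine Finset.sum_congr rfl fun D hD => ?_
    have hf1 := hfin D (Finset.mem_filter.1 hD).2
    rw [dif_pos hf1]
    rw [@Nat.card_eq_fintype_card _ (@Fintype.ofFinite _ hf1)]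
    rfl

end Pool.Agent.Q161.EA
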